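import Pool.Agent.Lib.FU22.Structure

/-!
# A complete recursive description of the fusible numbers

`IsNext x y`: `x < y` are fusible numbers with no fusible number strictly between them.
`sval x y n = x + (2 - 1 / 2 ^ n) * (y - x)` and `lval x y n = y + 1 - (y - x) / 2 ^ n` are the
numbers `s_n` and `ℓ_n` of the problem.
-/

set_option autoImplicit false

namespace Pool.Agent.Results.MP_67db36_lc.RecursiveStructure

open Pool.Agent.FU22 Pool.Agent.Lib.MP_67db36_lc

/-- Fusible numbers below `1`; every rational `q ≥ 1` lies in a block `[ℓ_n, ℓ_{n+1})` of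
consecutive fusible numbers `x < y`; in such a block `q` is fusible if and only if
`z = 2 q - 1 - s_n` is, where `q = s_n ∼ z`, and `s_n` is the `(n + 1)`-st successor of `x`. -/
theorem result :
    (∀ q : ℚ, q < 1 → (Fusible q ↔ ∃ k : ℕ, q = 1 - 1 / 2 ^ k)) ∧
    (∀ q : ℚ, 1 ≤ q → ∃ x y : ℚ, IsNext x y ∧ ∃ n : ℕ, lval x y n ≤ q ∧ q < lval x y (n + 1)) ∧
    (∀ x y : ℚ, IsNext x y → ∀ n : ℕ,
      sval x y 0 = y ∧ IsNext (sval x y n) (sval x y (n + 1)) ∧
      (∀ q : ℚ, lval x y n ≤ q → q < lval x y (n + 1) →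
        |sval x y n - (2 * q - 1 - sval x y n)| < 1 ∧
        (Fusible q ↔ Fusible (2 * q - 1 - sval x y n)))) := by
  refine ⟨?_, ?_, ?_⟩
  · intro q hq
    constructor
    · intro h
      obtain ⟨k, hk⟩ := ((fusible_iff q).mp h).lt_one hq
      exact ⟨k, by rw [one_div_two_pow]; exact hk⟩
    · rintro ⟨k, hk⟩
      rw [hk, one_div_two_pow]
      exact (fusible_iff _).mpr (Fus.one_sub_pw k)
  · intro q hq
    obtain ⟨x, y, hc, n, h1, h2⟩ := cover hq
    exact ⟨x, y, (isNext_iff x y).mpr hc, n, h1, h2⟩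
  · intro x y h n
    have hc := (isNext_iff x y).mp h
    refine ⟨by unfold sval; norm_num, (isNext_iff _ _).mpr (chain hc n), ?_⟩
    intro q h1 h2
    refine ⟨block_close hc n h1 h2, ?_⟩
    rw [fusible_iff, fusible_iff]
    exact block hc n h1 h2

end Pool.Agent.Results.MP_67db36_lc.RecursiveStructure
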